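import Mathlib
import Pool.Agent.Q3.Spec.MultSalem

/-!
# MP_6c75e4_nt: multiplicative Lagrange spectra never fill `[0,1/2]`
-/

set_option autoImplicit false

namespace Pool.Agent.Results.MP_6c75e4_nt.NeverAll

open Filter Topology Polynomial

/-- Distance to the nearest integer. -/
noncomputable def dist1 (x : ℝ) : ℝ := |x - (round x : ℝ)|

open Classical in
/-- The expanding roots of `P`: the complex roots of modulus `> 1`. -/
noncomputable def expanding (P : ℤ[X]) : Finset ℂ :=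
  ((P.map (Int.castRingHom ℂ)).roots.toFinset).filter (fun z => 1 < ‖z‖)

/-- The families `(g_z)` of complex polynomials of degree `≤ k`, indexed by the expanding roots `z`,
with `g_{z̄}` the coefficientwise conjugate of `g_z`. -/
def Xi (P : ℤ[X]) (k : ℕ) : Set (ℂ → ℂ[X]) :=
  {g | ∀ z ∈ expanding P, (g z).natDegree ≤ k ∧ g (starRingEnd ℂ z) = (g z).map (starRingEnd ℂ)}

/-- The multiplicative Lagrange spectrum of order `k` of `P`. -/
def spectrum (k : ℕ) (P : ℤ[X]) : Set ℝ :=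
  {v | ∃ g ∈ Xi P k, ∃ x : ℕ → ℝ,
    (∀ n : ℕ, (x n : ℂ) = ∑ z ∈ expanding P, (g z).eval (n : ℂ) * z ^ n) ∧
    limsup (fun n => dist1 (x n)) atTop = v}

/-- For every nonzero integer polynomial `P` and every `k`, the spectrum of order `k` is countable in a
neighbourhood of `0`, so it is not `[0,1/2]`. Hence it is not closed whenever it is dense in
`[0,1/2]`; this happens for the non-hyperbolic `X⁴ - X³ - X² - X + 1` and every `k`. -/
theorem result :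
    (∀ (P : ℤ[X]) (k : ℕ), P ≠ 0 →
      (∃ c : ℝ, 0 < c ∧ (spectrum k P ∩ Set.Iio c).Countable) ∧
      (∃ v ∈ Set.Icc (0 : ℝ) (1 / 2), v ∉ spectrum k P) ∧
      (Set.Icc (0 : ℝ) (1 / 2) ⊆ closure (spectrum k P) → ¬ IsClosed (spectrum k P))) ∧
    (∃ P : ℤ[X], P = X ^ 4 - X ^ 3 - X ^ 2 - X + 1 ∧ P.Monic ∧ Irreducible P ∧ P.coeff 0 ≠ 0 ∧
      (∃ z : ℂ, aeval z P = 0 ∧ 1 < ‖z‖) ∧ (∃ z : ℂ, aeval z P = 0 ∧ ‖z‖ = 1) ∧
      ∀ k : ℕ, ¬ IsClosed (spectrum k P)) := by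
  refine ⟨fun P k hP => ⟨?_, ?_, ?_⟩, Q3.Spec.P4, rfl, Q3.Spec.P4_monic, Q3.Spec.P4_irreducible, ?_,
    Q3.Spec.P4_roots.1, Q3.Spec.P4_roots.2, Q3.Spec.LSpec_P4_not_closed⟩
  · refine ⟨1 / Q3.Spec.len (P ^ (k + 1)), ?_, Q3.Spec.LSpec_countable P hP k⟩
    have := Q3.Spec.len_pos (P ^ (k + 1)) (pow_ne_zero _ hP)
    positivity
  · obtain ⟨v, hv, hvL⟩ := Q3.Spec.LSpec_missing P hP k
    exact ⟨v, ⟨hv.1.le, hv.2.le⟩, hvL⟩
  · intro hd hcl
    obtain ⟨v, hv, hvL⟩ := Q3.Spec.LSpec_missing P hP k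
    rw [hcl.closure_eq] at hd
    exact hvL (hd ⟨hv.1.le, hv.2.le⟩)
  · rw [Q3.Spec.P4_coeff_zero]; exact one_ne_zero

end Pool.Agent.Results.MP_6c75e4_nt.NeverAll
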